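import Pool.Agent.Helper462.Vnr.Homeo

/-!
# MP_1e63be_al: the left and right Ziegler spectra have the same Cantor-Bendixson rank for von
Neumann regular rings generated over their centre by fewer than `2^ℵ₀` elements

The Ziegler spectrum (pp formulas in one variable, pure-injective modules, topology generated by
the sets `(φ/ψ)`) is defined in `Pool/Agent/Helper462/Zg/Defs.lean`, the Cantor-Bendixson
derivatives `cb` in `Pool/Agent/Helper462/Cb/RankDefs.lean`. Left `R`-modules are Mathlib's
`R`-modules, right `R`-modules are modules over `Rᵐᵒᵖ`.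
-/

namespace Pool.Agent.Results.MP_1e63be_al.RegularRings

open VNR Cb Zg

universe u v

/-- `CB(T) = r`: either `T^(β) ≠ ∅`, `T^(β+1) = ∅` and `r = β`, or no derivative is empty and
`r = ∞` -/
def HasCB (T : Type (u + 1)) [TopologicalSpace T] (r : WithTop Ordinal.{v}) : Prop :=
  (∃ β : Ordinal.{v}, r = (β : WithTop Ordinal.{v}) ∧ cb T β ≠ ∅ ∧ cb T (β + 1) = ∅) ∨
    (r = ⊤ ∧ ∀ β : Ordinal.{v}, cb T β ≠ ∅)

/-- **Theorem.** Let `R` be a von Neumann regular ring which is generated, as an algebra over its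
centre, by fewer than `2^ℵ₀` elements (for instance any regular algebra of dimension less than
`2^ℵ₀` over a field of any cardinality). Then `CB(_R Zg) = CB(Zg_R)`: the same derivatives are
empty, and the two ranks (ordinals or `∞`) agree. -/
theorem result (R : Type u) [Ring R] (hreg : ∀ a : R, ∃ x, a * x * a = a)
    (G : Set R) (hG : Cardinal.mk G < Cardinal.continuum)
    (hgen : Algebra.adjoin (Subring.center R) G = ⊤) :
    (∀ α : Ordinal.{v}, cb (ZieglerSpectrum R) α = ∅ ↔ cb (ZieglerSpectrum Rᵐᵒᵖ) α = ∅) ∧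
    ∀ r : WithTop Ordinal.{v},
      HasCB (ZieglerSpectrum R) r ↔ HasCB (ZieglerSpectrum Rᵐᵒᵖ) r := by
  obtain ⟨G', hG', hspan⟩ := exists_span_of_adjoin R G hG hgen
  have key : ∀ α : Ordinal.{v},
      cb (ZieglerSpectrum R) α = ∅ ↔ cb (ZieglerSpectrum Rᵐᵒᵖ) α = ∅ :=
    fun α => cb_zg_iff hreg G' hG' hspan α
  refine ⟨key, fun r => ?_⟩
  unfold HasCB
  simp only [ne_eq, key]

end Pool.Agent.Results.MP_1e63be_al.RegularRings
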